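import Mathlib
import Pool.Agent.Helper413.Gal.BC
import Pool.Agent.Helper920.Gal.Aut

set_option autoImplicit false
set_option linter.unusedSectionVars false

open scoped TensorProduct
open CategoryTheory CategoryTheory.Limits AlgebraicGeometry MvPolynomial
open Pool.Agent.Helper226 Pool.Agent.Helper413.Gal

namespace Pool.Agent.Results.MP_f49c72_ag.SameMonomialIdeals

/-- An ideal generated by monomials. -/
def IsMonomialIdeal {K : Type} [Field K] {n : ℕ} (I : Ideal (MvPolynomial (Fin n) K)) : Prop :=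
  ∃ S : Set (Fin n →₀ ℕ), I = Ideal.span ((fun s => monomial s (1 : K)) '' S)

/-- `Mon(Z)`: the set of monomial ideals whose point on the Hilbert scheme lies on `Z`. -/
def Mon {K : Type} [Field K] {n d : ℕ} (𝓗 : HilbertScheme K (MvPolynomial (Fin n) K) d)
    (Z : Set 𝓗.H) : Set (Ideal (MvPolynomial (Fin n) K)) :=
  {I | IsMonomialIdeal I ∧ ∃ f : PointsOver K 𝓗.H 𝓗.s K, 𝓗.idealOf f = I ∧ Set.range f.1 ⊆ Z}

lemma map_monomialIdeal {K : Type} [Field K] {n : ℕ} (σ : K →+* K)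
    {I : Ideal (MvPolynomial (Fin n) K)} (h : IsMonomialIdeal I) :
    I.map (MvPolynomial.map σ) = I := by
  obtain ⟨S, rfl⟩ := h
  rw [Ideal.map_span]
  congr 1
  rw [← Set.image_comp]
  refine Set.image_congr fun s _ => ?_
  rw [Function.comp_apply, map_monomial, map_one]

section fixed
variable {K : Type} [Field K] [Algebra ℚ K]

lemma aTAE_map (σ : K ≃ₐ[ℚ] K) (x : K ⊗[ℚ] MvPolynomial (Fin 10) ℚ) :
    algebraTensorAlgEquiv (σ := Fin 10) ℚ K
      (Algebra.TensorProduct.map (σ : K →ₐ[ℚ] K) (AlgHom.id ℚ _) x) =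
      MvPolynomial.map (σ : K →+* K) (algebraTensorAlgEquiv (σ := Fin 10) ℚ K x) := by
  have h0 : (σ : K →+* K).comp (algebraMap ℚ K) = algebraMap ℚ K := by
    ext x
    simp
  induction x with
  | zero => simp
  | tmul r p =>
    rw [Algebra.TensorProduct.map_tmul, algebraTensorAlgEquiv_tmul, algebraTensorAlgEquiv_tmul,
      smul_eq_C_mul, smul_eq_C_mul, map_mul, map_C, MvPolynomial.map_map, h0]
    rfl
  | add x y hx hy => rw [map_add, map_add, map_add, map_add, hx, hy]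

/-- points whose ideal is fixed by `σ` are fixed by `σ` -/
lemma galAct_fixed (σ : K ≃ₐ[ℚ] K) (f : PointsOver ℚ HH.H HH.s K)
    (h : (idealK HH f).map (MvPolynomial.map (σ : K →+* K)) = idealK HH f) :
    galAct HH σ (ptOf HH f) = ptOf HH f := by
  let f' : PointsOver ℚ HH.H HH.s K := ⟨Spec.map (CommRingCat.ofHom (σ : K →+* K)) ≫ f.1, by
    rw [Category.assoc, f.2, ← Spec.map_comp, ← CommRingCat.ofHom_comp]
    congr 2
    ext x
    simp⟩
  have h1 := HH.natural K K (σ : K →ₐ[ℚ] K) f f' rfl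
  have h2 : idealK HH f' = (idealK HH f).map (MvPolynomial.map (σ : K →+* K)) := by
    unfold idealK
    rw [h1]
    exact map_map_congr (algebraTensorAlgEquiv (σ := Fin 10) ℚ K).toRingEquiv.toRingHom
      (algebraTensorAlgEquiv (σ := Fin 10) ℚ K).toRingEquiv.toRingHom
      (Algebra.TensorProduct.map (σ : K →ₐ[ℚ] K)
        (AlgHom.id ℚ (MvPolynomial (Fin 10) ℚ))).toRingHom
      (MvPolynomial.map (σ : K →+* K)) (fun x => aTAE_map σ x) _
  rw [h] at h2
  have h3 : f' = f := by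
    apply (HH.Φ K).injective
    apply Subtype.ext
    have h4 : ∀ I : Ideal (K ⊗[ℚ] MvPolynomial (Fin 10) ℚ),
        (I.map (algebraTensorAlgEquiv (σ := Fin 10) ℚ K)).comap
          (algebraTensorAlgEquiv (σ := Fin 10) ℚ K) = I := fun I =>
      Ideal.comap_map_of_bijective _ (algebraTensorAlgEquiv (σ := Fin 10) ℚ K).bijective
    rw [← h4 (HH.Φ K f').1, ← h4 (HH.Φ K f).1]
    unfold idealK at h2
    rw [h2]
  rw [galAct_ptOf HH σ f f' rfl, h3]

end fixed

section transport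
variable {K : Type} [Field K] {n d : ℕ} (𝓗₁ 𝓗₂ : HilbertScheme K (MvPolynomial (Fin n) K) d)

lemma idealOf_tr (f : PointsOver K 𝓗₁.H 𝓗₁.s K) :
    𝓗₂.idealOf (tr 𝓗₁ 𝓗₂ K f) = 𝓗₁.idealOf f := by
  unfold HilbertScheme.idealOf
  rw [Φ_tr]

lemma Mon_image (Z : Set 𝓗₁.H) : Mon 𝓗₂ (tmor 𝓗₁ 𝓗₂ '' Z) = Mon 𝓗₁ Z := by
  have key : ∀ g : PointsOver K 𝓗₁.H 𝓗₁.s K, Set.range (tr 𝓗₁ 𝓗₂ K g).1 ⊆ tmor 𝓗₁ 𝓗₂ '' Z ↔
      Set.range g.1 ⊆ Z := by
    intro g
    rw [tr_val]
    have h1 : Set.range (g.1 ≫ tmor 𝓗₁ 𝓗₂) = tmor 𝓗₁ 𝓗₂ '' Set.range g.1 := by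
      ext x
      simp
    rw [h1]
    exact Set.image_subset_image_iff (tmor 𝓗₁ 𝓗₂).homeomorph.injective
  ext I
  constructor
  · rintro ⟨hI, f, hf, hZ⟩
    refine ⟨hI, tr 𝓗₂ 𝓗₁ K f, by rw [idealOf_tr, hf], ?_⟩
    rw [← key, tr_tr]
    exact hZ
  · rintro ⟨hI, f, hf, hZ⟩
    exact ⟨hI, tr 𝓗₁ 𝓗₂ K f, by rw [idealOf_tr, hf], (key f).2 hZ⟩

end transport

/-- an automorphism changing the sign of a square root of `-1` -/
lemma exists_sign (K : Type) [Field K] [IsAlgClosed K] [Algebra ℚ K] :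
    ∃ (ι : K) (σ : K ≃ₐ[ℚ] K), ι ^ 2 = -1 ∧ σ ι = -ι := by
  have halg : Algebra.IsAlgebraic ℚ (AlgebraicClosure ℚ) := AlgebraicClosure.isAlgebraic ℚ
  obtain ⟨ι, hι⟩ := exists_i
  obtain ⟨τ, hτ⟩ := exists_moving _ ι hι
  let i : AlgebraicClosure ℚ →ₐ[ℚ] K := IsAlgClosed.lift
  let := i.toRingHom.toAlgebra
  obtain ⟨σ, hσ⟩ := Pool.Agent.Helper920.Gal.exists_extend (k := K) τ.toRingEquiv
  let σ' : K ≃ₐ[ℚ] K := AlgEquiv.ofRingEquiv (f := σ) (fun r => by
    rw [eq_ratCast (algebraMap ℚ K) r, map_ratCast])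
  have h1 : (i ι) ^ 2 = -1 := by rw [← map_pow, hι, map_neg, map_one]
  refine ⟨i ι, σ', h1, ?_⟩
  have h2 : σ (i ι) = i (τ ι) := hσ ι
  have h3 : (σ (i ι)) ^ 2 = -1 := by rw [← map_pow, h1, map_neg, map_one]
  rcases sq_cases h3 h1 with h4 | h4
  · exfalso
    rw [h2] at h4
    exact hτ (i.injective h4)
  · exact h4

/-- Over every algebraically closed field of characteristic zero, the Hilbert scheme of 66 points
of affine 10-space has two distinct irreducible components with the same monomial ideals. -/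
theorem result (K : Type) [Field K] [IsAlgClosed K] [CharZero K] :
    Nonempty (HilbertScheme K (MvPolynomial (Fin 10) K) 66) ∧
    ∀ 𝓗 : HilbertScheme K (MvPolynomial (Fin 10) K) 66,
      ∃ Z₁ ∈ irreducibleComponents 𝓗.H, ∃ Z₂ ∈ irreducibleComponents 𝓗.H,
        Z₁ ≠ Z₂ ∧ Mon 𝓗 Z₁ = Mon 𝓗 Z₂ := by
  obtain ⟨ι, σ, hι, hσ⟩ := exists_sign K
  refine ⟨⟨bcHilb HH K⟩, fun 𝓗 => ?_⟩
  have hmon : Mon (bcHilb HH K) (ZZ hι) = Mon (bcHilb HH K) (galAct HH σ '' ZZ hι) := by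
    have key : ∀ g : PointsOver K (bcHilb HH K).H (bcHilb HH K).s K,
        IsMonomialIdeal ((bcHilb HH K).idealOf g) →
        (Set.range g.1 ⊆ ZZ hι ↔ Set.range g.1 ⊆ galAct HH σ '' ZZ hι) := by
      intro g hg
      have h1 : (bcHilb HH K).idealOf g = idealK HH (down HH K g) := idealOf_bcHilb HH K g
      rw [h1] at hg
      have h2 := galAct_fixed σ (down HH K g) (map_monomialIdeal (σ : K →+* K) hg)
      have h3 : ∀ Z : Set (bcH HH K), Set.range g.1 ⊆ Z ↔ ptOf HH (down HH K g) ∈ Z := by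
        intro Z
        constructor
        · intro h
          have h4 := ptOf_bcHilb HH K g (⟨⊥, Ideal.isPrime_bot⟩ : PrimeSpectrum K)
          rw [← h4]
          exact h ⟨_, rfl⟩
        · rintro h _ ⟨x, rfl⟩
          have h4 := ptOf_bcHilb HH K g x
          exact h4 ▸ h
      refine (h3 _).trans (Iff.trans ?_ (h3 _).symm)
      constructor
      · intro h
        exact ⟨_, h, h2⟩
      · rintro ⟨z, hz, hz'⟩
        have h4 := galAct_isIso HH σ
        have h5 : z = ptOf HH (down HH K g) := by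
          apply (galAct HH σ).homeomorph.injective
          exact hz'.trans h2.symm
        rwa [h5] at hz
    ext I
    constructor
    · rintro ⟨hI, g, hg, hZ⟩
      exact ⟨hI, g, hg, (key g (by rw [hg]; exact hI)).1 hZ⟩
    · rintro ⟨hI, g, hg, hZ⟩
      exact ⟨hI, g, hg, (key g (by rw [hg]; exact hI)).2 hZ⟩
  refine ⟨tmor (bcHilb HH K) 𝓗 '' ZZ hι, isIso_image_comp _ _ (ZZ_mem hι),
    tmor (bcHilb HH K) 𝓗 '' (galAct HH σ '' ZZ hι),
    isIso_image_comp _ _ (image_comp HH σ _ (ZZ_mem hι)), ?_, ?_⟩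
  · intro h
    have h1 := (tmor (bcHilb HH K) 𝓗).homeomorph.injective.image_injective h
    exact ZZ_moved hι σ hσ h1.symm
  · exact (Mon_image _ _ _).trans (hmon.trans (Mon_image _ _ _).symm)

end Pool.Agent.Results.MP_f49c72_ag.SameMonomialIdeals
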